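import Pool.Agent.H97.PR.Targets

/-!
Blocks (row BLK).
-/

set_option autoImplicit false

namespace Pool.Agent.H42.PRY

open Finset Pool.Agent.H97.PR

theorem pf_BLK : T_BLK := by
  intro n b hb hbn
  have hN : 1 ≤ n / b := (Nat.one_le_div_iff hb).2 hbn
  refine ⟨fun i => ⟨min (i.1 / b) (n / b - 1), by omega⟩, fun v => ⟨?_, ?_⟩⟩
  · have h1 : ∀ j : Fin b, v.1 * b + j.1 < n := by
      intro j
      have h2 : (v.1 + 1) * b ≤ n / b * b := Nat.mul_le_mul_right _ v.2
      have h3 : n / b * b ≤ n := Nat.div_mul_le_self n b
      have h4 : (v.1 + 1) * b = v.1 * b + b := by ring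
      have := j.2
      omega
    have h2 : (univ : Finset (Fin b)).card ≤
        (univ.filter fun i : Fin n => (⟨min (i.1 / b) (n / b - 1), by omega⟩ :
          Fin (n / b)) = v).card := by
      refine card_le_card_of_injOn (fun j => ⟨v.1 * b + j.1, h1 j⟩) ?_ ?_
      · intro j _
        simp only [coe_filter, mem_univ, true_and]
        show (⟨min ((v.1 * b + j.1) / b) (n / b - 1), _⟩ : Fin (n / b)) = v
        apply Fin.ext
        show min ((v.1 * b + j.1) / b) (n / b - 1) = v.1
        have h3 : (v.1 * b + j.1) / b = v.1 := by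
          rw [mul_comm, Nat.mul_add_div hb, Nat.div_eq_of_lt j.2, add_zero]
        rw [h3]
        have := v.2
        omega
      · intro j _ j' _ hjj
        have := congrArg Fin.val hjj
        simp only [add_right_inj] at this
        exact Fin.ext this
    simpa using h2
  · have h2 : (univ.filter fun i : Fin n => (⟨min (i.1 / b) (n / b - 1), by omega⟩ :
          Fin (n / b)) = v).card ≤ (Finset.Ico (v.1 * b) ((v.1 + 2) * b)).card := by
      refine card_le_card_of_injOn (fun i => i.1) ?_ ?_
      · intro i hi
        have hi' := (mem_filter.1 (mem_coe.1 hi)).2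
        have h3 : min (i.1 / b) (n / b - 1) = v.1 := congrArg Fin.val hi'
        have h4 : i.1 / b * b ≤ i.1 := Nat.div_mul_le_self _ _
        have h5 : i.1 < (i.1 / b + 1) * b := Nat.lt_mul_of_div_lt (Nat.lt_succ_self _) hb
        have h6 : n < (n / b + 1) * b := Nat.lt_mul_of_div_lt (Nat.lt_succ_self _) hb
        rw [mem_coe, mem_Ico]
        constructor
        · have h7 : v.1 ≤ i.1 / b := by omega
          exact (Nat.mul_le_mul_right b h7).trans h4
        · by_cases h8 : i.1 / b ≤ n / b - 1
          · have h9 : i.1 / b + 1 ≤ v.1 + 2 := by omega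
            exact h5.trans_le (Nat.mul_le_mul_right b h9)
          · have h9 : n / b + 1 = v.1 + 2 := by omega
            rw [h9] at h6
            exact i.2.trans h6
      · intro i _ j _ hij
        exact Fin.ext hij
    refine h2.trans ?_
    rw [Nat.card_Ico]
    have : (v.1 + 2) * b = v.1 * b + 2 * b := by ring
    omega

end Pool.Agent.H42.PRY
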