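import Pool.Agent.H97.PR.Targets

/-!
All rounds (row ITR).
-/

set_option autoImplicit false

namespace Pool.Agent.H42.PRY

open Finset Pool.Agent.H97.PR

lemma arith (R d d' h h' θ K : ℕ) (h1 : 2 * (R + 1) * d' ≤ 2 * h' + 2 * (R + 1) * θ +
    R * (R + 1) * K) (h2 : d ≤ d' + K) (h3 : h' + d ≤ h + θ) :
    2 * (R + 1 + 1) * d ≤ 2 * h + 2 * (R + 1 + 1) * θ + (R + 1) * (R + 1 + 1) * K := by
  have h4 : 2 * (R + 1) * d ≤ 2 * (R + 1) * (d' + K) := Nat.mul_le_mul_left _ h2
  have e1 : 2 * (R + 1 + 1) * d = 2 * (R + 1) * d + 2 * d := by ring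
  have e2 : 2 * (R + 1) * (d' + K) = 2 * (R + 1) * d' + 2 * (R + 1) * K := by ring
  have e3 : (R + 1) * (R + 1 + 1) * K = R * (R + 1) * K + 2 * (R + 1) * K := by ring
  have e4 : 2 * (R + 1 + 1) * θ = 2 * (R + 1) * θ + 2 * θ := by ring
  rw [e1, e3, e4]
  omega

theorem pf_ITR (hDPT : T_DPT) (hRND : T_RND) : T_ITR := by
  intro n N k m blk γ B D q σ g F G hE S A h hD L hL R
  induction R with
  | zero =>
    intro i a V Cl hi hS hA _
    have h1 := hDPT n N k m blk γ B D q σ g F G hE S A h hD i a V Cl hi hS hA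
    simp only [zero_add, mul_one, zero_mul, add_zero]
    omega
  | succ R ih =>
    intro i a V Cl hi hS hA hR
    have hLd : L ≤ dm V := by
      have e : (R + 1) * (L + γ * N) = L + (γ * N + R * (L + γ * N)) := by ring
      omega
    have hs : S * 2 ^ (dm V - L) * 4 ^ N < 2 ^ dm V := by
      have e : 2 ^ dm V = 2 ^ L * 2 ^ (dm V - L) := by
        rw [← pow_add]
        congr 1
        omega
      rw [e]
      have e2 : S * 2 ^ (dm V - L) * 4 ^ N = S * 4 ^ N * 2 ^ (dm V - L) := by ring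
      rw [e2]
      exact Nat.mul_lt_mul_of_pos_right hL (by positivity)
    obtain ⟨i', a', V', Cl', hi', hS', hA', h1, h2⟩ :=
      hRND n N k m blk γ B D q σ g F G hE S A h hD (dm V - L) i a V Cl hi hS hA hs
    have h3 : dm V ≤ dm V' + (L + γ * N) := by omega
    have h4 : R * (L + γ * N) ≤ dm V' := by
      have e : (R + 1) * (L + γ * N) = R * (L + γ * N) + (L + γ * N) := by ring
      omega
    have h5 := ih i' a' V' Cl' hi' hS' hA' h4
    exact arith R (dm V) (dm V') (h i) (h i') (γ * N + B * q) (L + γ * N) h5 h3 h2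

end Pool.Agent.H42.PRY
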